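import Pool.Agent.Y142.ZS.Stm
import Pool.Agent.Y884.ZI.Open
import Pool.Agent.Y708.ZO.Tan

/-!
# Project Y142-ZS (owner helper142), task OPENS: full symplectic Lie algebra implies open image

The elements of the image are only similitudes. We pass to the closed subgroup `G1` of the elements
whose image preserves the form. Commutators belong to it, so the brackets of tangent vectors are
tangent vectors of the image of `G1`, and these brackets span the symplectic Lie algebra. The rest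
is the successive approximation of the orthogonal case (Y884/ZI/Open.lean) for `G1`.
-/

set_option autoImplicit false

open Matrix Filter Topology

namespace Pool.Agent.Y664.ZS

open Pool.Agent.Y142.ZO Pool.Agent.Y142.ZI Pool.Agent.Y142.ZS Pool.Agent.Y497.ZO
open Pool.Agent.Y884.ZI (nsub ninv isom_mul)
open Pool.Agent.Y708.ZO (dq eq_of_dq rho_tendsto rho_inv_tendsto tan mem_tan)

attribute [local instance] Matrix.normedAddCommGroup Matrix.normedSpace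

variable {ℓ : ℕ} [Fact ℓ.Prime] {N : ℕ}

local instance ultra : IsUltrametricDist (Mt ℓ N) :=
  inferInstanceAs (IsUltrametricDist (Fin N → Fin N → ℚ_[ℓ]))

local instance prop : ProperSpace (Mt ℓ N) :=
  inferInstanceAs (ProperSpace (Fin N → Fin N → ℚ_[ℓ]))

/-! ### Algebra: the symplectic Lie algebra is spanned by brackets -/

section alg

variable {J : Mt ℓ N}

theorem inv_transpose (hJ : Jᵀ = -J) (hd : J.det ≠ 0) : (J⁻¹)ᵀ = -J⁻¹ := by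
  have hU : IsUnit J.det := isUnit_iff_ne_zero.2 hd
  rw [Matrix.transpose_nonsing_inv, hJ]
  refine Matrix.inv_eq_right_inv ?_
  rw [neg_mul_neg, Matrix.mul_nonsing_inv J hU]

theorem spLie_of_symm (hJ : Jᵀ = -J) (hd : J.det ≠ 0) {S : Mt ℓ N} (hS : Sᵀ = S) :
    SpLie J (J⁻¹ * S) := by
  have hU : IsUnit J.det := isUnit_iff_ne_zero.2 hd
  unfold SpLie
  rw [transpose_mul, hS, inv_transpose hJ hd, mul_neg, neg_mul, mul_assoc,
    Matrix.nonsing_inv_mul J hU, mul_one, ← mul_assoc, Matrix.mul_nonsing_inv J hU, one_mul,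
    neg_add_cancel]

theorem vmv (K : Mt ℓ N) (a b c d : Fin N → ℚ_[ℓ]) :
    vecMulVec a b * (K * vecMulVec c d) = (b ⬝ᵥ K *ᵥ c) • vecMulVec a d := by
  rw [Matrix.mul_vecMulVec, Matrix.vecMulVec_mul_vecMulVec, Matrix.vecMulVec_smul]

theorem anti {K : Mt ℓ N} (hK : Kᵀ = -K) (v w : Fin N → ℚ_[ℓ]) :
    v ⬝ᵥ K *ᵥ w = -(w ⬝ᵥ K *ᵥ v) := by
  rw [Matrix.dotProduct_mulVec, ← Matrix.mulVec_transpose, hK, Matrix.neg_mulVec, neg_dotProduct,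
    dotProduct_comm]

theorem anti_self {K : Mt ℓ N} (hK : Kᵀ = -K) (v : Fin N → ℚ_[ℓ]) : v ⬝ᵥ K *ᵥ v = 0 := by
  have h := anti hK v v
  have h2 : (2 : ℚ_[ℓ]) * (v ⬝ᵥ K *ᵥ v) = 0 := by linear_combination h
  exact (mul_eq_zero.1 h2).resolve_left two_ne_zero

theorem bracket {K : Mt ℓ N} (hK : Kᵀ = -K) (v w : Fin N → ℚ_[ℓ]) :
    (K * (vecMulVec v w + vecMulVec w v)) * (K * vecMulVec v v) -
      (K * vecMulVec v v) * (K * (vecMulVec v w + vecMulVec w v)) =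
      (2 * (w ⬝ᵥ K *ᵥ v)) • (K * vecMulVec v v) := by
  have h1 : (K * (vecMulVec v w + vecMulVec w v)) * (K * vecMulVec v v) =
      (w ⬝ᵥ K *ᵥ v) • (K * vecMulVec v v) := by
    rw [mul_assoc, add_mul, vmv, vmv, anti_self hK, zero_smul, add_zero, mul_smul_comm]
  have h2 : (K * vecMulVec v v) * (K * (vecMulVec v w + vecMulVec w v)) =
      -((w ⬝ᵥ K *ᵥ v) • (K * vecMulVec v v)) := by
    rw [mul_assoc, mul_add, mul_add, vmv, vmv, anti_self hK, zero_smul, zero_add, anti hK v w,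
      neg_smul, mul_neg, mul_smul_comm]
  rw [h1, h2, sub_neg_eq_add, ← two_smul ℚ_[ℓ], smul_smul]

/-- a subspace which contains the brackets contains everything -/
theorem sp_le (hJ : Jᵀ = -J) (hd : J.det ≠ 0) (W : Submodule ℚ_[ℓ] (Mt ℓ N))
    (hW : ∀ X Y : Mt ℓ N, SpLie J X → SpLie J Y → X * Y - Y * X ∈ W) {X : Mt ℓ N}
    (hX : SpLie J X) : X ∈ W := by
  have hU : IsUnit J.det := isUnit_iff_ne_zero.2 hd
  obtain ⟨K, hK⟩ : ∃ K : Mt ℓ N, K = J⁻¹ := ⟨_, rfl⟩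
  have hJK : J * K = 1 := by rw [hK]; exact Matrix.mul_nonsing_inv J hU
  have hKJ : K * J = 1 := by rw [hK]; exact Matrix.nonsing_inv_mul J hU
  have hKt : Kᵀ = -K := by rw [hK]; exact inv_transpose hJ hd
  have hP : ∀ v : Fin N → ℚ_[ℓ], K * vecMulVec v v ∈ W := by
    intro v
    by_cases hv : v = 0
    · rw [hv, Matrix.zero_vecMulVec, mul_zero]
      exact W.zero_mem
    · have h1 : K *ᵥ v ≠ 0 := by
        intro h
        apply hv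
        have h2 : J *ᵥ (K *ᵥ v) = v := by rw [Matrix.mulVec_mulVec, hJK, Matrix.one_mulVec]
        rw [← h2, h, Matrix.mulVec_zero]
      obtain ⟨i, hi⟩ := Function.ne_iff.1 h1
      obtain ⟨w, hw⟩ : ∃ w : Fin N → ℚ_[ℓ], w = Pi.single i 1 := ⟨_, rfl⟩
      have h2 : w ⬝ᵥ K *ᵥ v ≠ 0 := by
        rw [hw, single_one_dotProduct]
        exact hi
      have h3 := hW (K * (vecMulVec v w + vecMulVec w v)) (K * vecMulVec v v)
        (by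
          rw [hK]
          refine spLie_of_symm hJ hd ?_
          rw [transpose_add, Matrix.transpose_vecMulVec, Matrix.transpose_vecMulVec, add_comm])
        (by
          rw [hK]
          refine spLie_of_symm hJ hd ?_
          rw [Matrix.transpose_vecMulVec])
      rw [bracket hKt] at h3
      have h4 := W.smul_mem (2 * (w ⬝ᵥ K *ᵥ v))⁻¹ h3
      rwa [smul_smul, inv_mul_cancel₀ (mul_ne_zero two_ne_zero h2), one_smul] at h4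
  have hS : (J * X)ᵀ = J * X := by
    rw [transpose_mul, hJ, mul_neg]
    exact (eq_neg_of_add_eq_zero_right hX).symm
  obtain ⟨S, hSd⟩ : ∃ S : Mt ℓ N, S = J * X := ⟨_, rfl⟩
  rw [← hSd] at hS
  have hXS : X = K * S := by rw [hSd, ← mul_assoc, hKJ, one_mul]
  obtain ⟨e, he⟩ : ∃ e : Fin N → Fin N → ℚ_[ℓ], e = fun i => Pi.single i 1 := ⟨_, rfl⟩
  have hQ : ∀ i j, K * (vecMulVec (e i) (e j) + vecMulVec (e j) (e i)) ∈ W := by
    intro i j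
    have h1 : K * (vecMulVec (e i) (e j) + vecMulVec (e j) (e i)) =
        K * vecMulVec (e i + e j) (e i + e j) - K * vecMulVec (e i) (e i) -
          K * vecMulVec (e j) (e j) := by
      rw [← mul_sub, ← mul_sub]
      congr 1
      rw [Matrix.add_vecMulVec, Matrix.vecMulVec_add, Matrix.vecMulVec_add]
      abel
    rw [h1]
    exact W.sub_mem (W.sub_mem (hP _) (hP _)) (hP _)
  have h2 : S + Sᵀ = ∑ i, ∑ j, S i j • (vecMulVec (e i) (e j) + vecMulVec (e j) (e i)) := by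
    ext a b
    simp only [Matrix.add_apply, Matrix.sum_apply, Matrix.smul_apply, Matrix.transpose_apply,
      vecMulVec_apply, he, Pi.single_apply, smul_eq_mul, mul_add, Finset.sum_add_distrib]
    simp
  have h3 : K * (S + Sᵀ) ∈ W := by
    rw [h2, Finset.mul_sum]
    refine W.sum_mem fun i _ => ?_
    rw [Finset.mul_sum]
    refine W.sum_mem fun j _ => ?_
    rw [mul_smul_comm]
    exact W.smul_mem _ (hQ i j)
  rw [hS, ← two_smul ℚ_[ℓ] S, mul_smul_comm, ← hXS] at h3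
  have h4 := W.smul_mem (2 : ℚ_[ℓ])⁻¹ h3
  rwa [smul_smul, inv_mul_cancel₀ two_ne_zero, one_smul] at h4

end alg

/-! ### The subgroup of the isometries -/

section sub

variable {G : Type} [Group G] (ρ : G →* Mt ℓ N) (J : Mt ℓ N)

/-- the elements whose image preserves the form -/
def G1 : Subgroup G where
  carrier := {g | (ρ g)ᵀ * J * ρ g = J}
  mul_mem' := by
    intro a b ha hb
    show (ρ (a * b))ᵀ * J * ρ (a * b) = J
    rw [map_mul, transpose_mul]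
    calc (ρ b)ᵀ * (ρ a)ᵀ * J * (ρ a * ρ b) = (ρ b)ᵀ * ((ρ a)ᵀ * J * ρ a) * ρ b := by
          noncomm_ring
      _ = (ρ b)ᵀ * J * ρ b := by rw [show (ρ a)ᵀ * J * ρ a = J from ha]
      _ = J := hb
  one_mem' := by
    show (ρ 1)ᵀ * J * ρ 1 = J
    rw [map_one, transpose_one, one_mul, mul_one]
  inv_mem' := by
    intro a ha
    show (ρ a⁻¹)ᵀ * J * ρ a⁻¹ = J
    have h1 : ρ a * ρ a⁻¹ = 1 := by rw [← map_mul, mul_inv_cancel, map_one]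
    calc (ρ a⁻¹)ᵀ * J * ρ a⁻¹ = (ρ a⁻¹)ᵀ * ((ρ a)ᵀ * J * ρ a) * ρ a⁻¹ := by
          rw [show (ρ a)ᵀ * J * ρ a = J from ha]
      _ = (ρ a * ρ a⁻¹)ᵀ * J * (ρ a * ρ a⁻¹) := by
          rw [transpose_mul]; noncomm_ring
      _ = J := by rw [h1, transpose_one, one_mul, mul_one]

theorem mem_G1 (g : G) : g ∈ G1 ρ J ↔ (ρ g)ᵀ * J * ρ g = J := Iff.rfl

variable {ρ J}

theorem sim_mul {a b : G} {c d : ℚ_[ℓ]} (ha : Sim J (ρ a) c) (hb : Sim J (ρ b) d) :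
    Sim J (ρ (a * b)) (c * d) := by
  unfold Sim at *
  rw [map_mul, transpose_mul]
  calc (ρ b)ᵀ * (ρ a)ᵀ * J * (ρ a * ρ b) = (ρ b)ᵀ * ((ρ a)ᵀ * J * ρ a) * ρ b := by
        noncomm_ring
    _ = c • ((ρ b)ᵀ * J * ρ b) := by rw [ha, mul_smul_comm, smul_mul_assoc]
    _ = _ := by rw [hb, smul_smul]

theorem comm_mem (hI : ∀ g, ∃ c, Sim J (ρ g) c) (a b : G) : a * b * a⁻¹ * b⁻¹ ∈ G1 ρ J := by
  obtain ⟨c, hc⟩ := hI a
  obtain ⟨d, hd⟩ := hI b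
  obtain ⟨c', hc'⟩ := hI a⁻¹
  obtain ⟨d', hd'⟩ := hI b⁻¹
  have h1 : (c * c') • J = J := by
    have h := sim_mul hc hc'
    unfold Sim at h
    rw [mul_inv_cancel, map_one, transpose_one, one_mul, mul_one] at h
    exact h.symm
  have h2 : (d * d') • J = J := by
    have h := sim_mul hd hd'
    unfold Sim at h
    rw [mul_inv_cancel, map_one, transpose_one, one_mul, mul_one] at h
    exact h.symm
  have h3 := sim_mul (sim_mul (sim_mul hc hd) hc') hd'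
  unfold Sim at h3
  rw [mem_G1, h3]
  calc (c * d * c' * d') • J = (c * c') • ((d * d') • J) := by
        rw [smul_smul]; congr 1; ring
    _ = J := by rw [h2, h1]

/-- the restriction -/
noncomputable def rho1 (ρ : G →* Mt ℓ N) (J : Mt ℓ N) : G1 ρ J →* Mt ℓ N := ρ.comp (G1 ρ J).subtype

/-- brackets of tangent vectors are tangent to the image of the subgroup -/
theorem tangent_bracket (hI : ∀ g, ∃ c, Sim J (ρ g) c) {X Y : Mt ℓ N} (hX : IsTangent ℓ ρ X)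
    (hY : IsTangent ℓ ρ Y) : IsTangent ℓ (rho1 ρ J) (X * Y - Y * X) := by
  obtain ⟨σ, hσ⟩ := hX
  obtain ⟨τ, hτ⟩ := hY
  have hρσ := rho_tendsto ρ hσ
  have hρτ := rho_tendsto ρ hτ
  have hiσ := rho_inv_tendsto ρ hρσ
  have hiτ := rho_inv_tendsto ρ hρτ
  have t1 : Tendsto (fun m : ℕ => m / 2) atTop atTop := Nat.tendsto_div_const_atTop (by norm_num)
  have t2 : Tendsto (fun m : ℕ => m - m / 2) atTop atTop :=
    tendsto_atTop_mono (fun m => by omega) t1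
  refine ⟨fun m => ⟨σ (m / 2) * τ (m - m / 2) * (σ (m / 2))⁻¹ * (τ (m - m / 2))⁻¹,
    comm_mem hI _ _⟩, ?_⟩
  have h1 := (((Tendsto.mul (hσ.comp t1) (hτ.comp t2)).sub
    (Tendsto.mul (hτ.comp t2) (hσ.comp t1))).mul (hiσ.comp t1)).mul (hiτ.comp t2)
  rw [mul_one, mul_one] at h1
  refine h1.congr fun m => ?_
  simp only [Function.comp_apply]
  obtain ⟨a, ha⟩ : ∃ a, a = σ (m / 2) := ⟨_, rfl⟩
  obtain ⟨b, hb⟩ : ∃ b, b = τ (m - m / 2) := ⟨_, rfl⟩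
  rw [← ha, ← hb]
  have e1 : ρ b * ρ a * ρ a⁻¹ * ρ b⁻¹ = 1 := by
    rw [← map_mul, ← map_mul, ← map_mul]
    have : b * a * a⁻¹ * b⁻¹ = 1 := by group
    rw [this, map_one]
  have e2 : rho1 ρ J ⟨a * b * a⁻¹ * b⁻¹, comm_mem hI a b⟩ = ρ a * ρ b * ρ a⁻¹ * ρ b⁻¹ := by
    show ρ (a * b * a⁻¹ * b⁻¹) = _
    rw [map_mul, map_mul, map_mul]
  have e3 : ((ℓ : ℚ_[ℓ]) ^ m)⁻¹ = ((ℓ : ℚ_[ℓ]) ^ (m / 2))⁻¹ * ((ℓ : ℚ_[ℓ]) ^ (m - m / 2))⁻¹ := by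
    rw [← mul_inv, ← pow_add]
    congr 2
    omega
  rw [e2, e3]
  have e4 : ρ a * ρ b * ρ a⁻¹ * ρ b⁻¹ - 1 =
      ((ρ a - 1) * (ρ b - 1) - (ρ b - 1) * (ρ a - 1)) * ρ a⁻¹ * ρ b⁻¹ := by
    have e5 : (ρ a - 1) * (ρ b - 1) - (ρ b - 1) * (ρ a - 1) = ρ a * ρ b - ρ b * ρ a := by
      noncomm_ring
    rw [e5, sub_mul, sub_mul, e1]
  rw [e4]
  generalize ρ a - 1 = A
  generalize ρ b - 1 = B
  generalize ((ℓ : ℚ_[ℓ]) ^ (m / 2))⁻¹ = c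
  generalize ((ℓ : ℚ_[ℓ]) ^ (m - m / 2))⁻¹ = d
  rw [smul_mul_smul_comm, smul_mul_smul_comm, mul_comm d c, ← smul_sub, smul_mul_assoc,
    smul_mul_assoc]

theorem full_G1 (hJ : Jᵀ = -J) (hd : J.det ≠ 0) (hI : ∀ g, ∃ c, Sim J (ρ g) c)
    (hF : FullSp ℓ ρ J) : FullSp ℓ (rho1 ρ J) J := by
  intro X hX
  exact (mem_tan (rho1 ρ J) X).1 (sp_le hJ hd (tan (rho1 ρ J))
    (fun A B hA hB => (mem_tan (rho1 ρ J) _).2 (tangent_bracket hI (hF A hA) (hF B hB))) hX)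

end sub

/-! ### Successive approximation -/

/-- uniform approximation of the elements of the Lie algebra by elements of the group -/
theorem key {G : Type} [Group G] (ρ : G →* Mt ℓ N) (J : Mt ℓ N) (hF : FullSp ℓ ρ J) :
    ∃ n0 : ℕ, ∀ n, n0 ≤ n → ∀ X : Mt ℓ N, SpLie J X → ‖X‖ ≤ 1 →
      ∃ σ : G, ‖ρ σ - (1 + (ℓ : ℚ_[ℓ]) ^ n • X)‖ ≤ ((ℓ : ℝ) ^ (n + 1))⁻¹ := by
  have hl : (0 : ℝ) < (ℓ : ℝ)⁻¹ := inv_pos.2 lR_pos
  have h1 : ∀ X : Mt ℓ N, SpLie J X → ∃ n0 : ℕ, ∀ n, n0 ≤ n → ∃ σ : G,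
      ‖((ℓ : ℚ_[ℓ]) ^ n)⁻¹ • (ρ σ - 1) - X‖ < (ℓ : ℝ)⁻¹ := by
    intro X hX
    obtain ⟨σ, hσ⟩ := hF X hX
    have h2 := Metric.tendsto_atTop.1 hσ (ℓ : ℝ)⁻¹ hl
    obtain ⟨n0, h3⟩ := h2
    refine ⟨n0, fun n hn => ⟨σ n, ?_⟩⟩
    have h4 := h3 n hn
    rwa [dist_eq_norm] at h4
  choose! f hf using h1
  have hc : IsCompact ({X : Mt ℓ N | SpLie J X} ∩ Metric.closedBall 0 1) := by
    refine IsCompact.inter_left (isCompact_closedBall _ _) ?_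
    unfold SpLie
    refine isClosed_eq ?_ continuous_const
    exact (continuous_id.matrix_transpose.mul continuous_const).add
      (continuous_const.mul continuous_id)
  obtain ⟨t, ht1, ht2⟩ := hc.elim_nhds_subcover (fun X => Metric.ball X (ℓ : ℝ)⁻¹)
    (fun X _ => Metric.ball_mem_nhds X hl)
  refine ⟨t.sup f, fun n hn X hX hX1 => ?_⟩
  have h2 : X ∈ ⋃ Y ∈ t, Metric.ball Y (ℓ : ℝ)⁻¹ := by
    refine ht2 ⟨hX, ?_⟩
    rw [mem_closedBall_zero_iff]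
    exact hX1
  simp only [Set.mem_iUnion] at h2
  obtain ⟨Y, hY, hXY⟩ := h2
  rw [Metric.mem_ball, dist_eq_norm] at hXY
  obtain ⟨σ, hσ⟩ := hf Y (ht1 Y hY).1 n ((Finset.le_sup hY).trans hn)
  refine ⟨σ, ?_⟩
  have h3 : ρ σ - (1 + (ℓ : ℚ_[ℓ]) ^ n • X) =
      (ℓ : ℚ_[ℓ]) ^ n • ((((ℓ : ℚ_[ℓ]) ^ n)⁻¹ • (ρ σ - 1) - Y) - (X - Y)) := by
    rw [sub_sub_sub_cancel_right, smul_sub, smul_smul,
      mul_inv_cancel₀ (pow_ne_zero _ l_ne), one_smul]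
    abel
  rw [h3, norm_smul, norm_l_pow, pow_succ, mul_inv]
  refine mul_le_mul_of_nonneg_left ?_ (by positivity)
  exact (nsub _ _).trans (max_le hσ.le hXY.le)

/-- one step of the successive approximation -/
theorem step1 {G : Type} [Group G] (ρ : G →* Mt ℓ N) (B : Mt ℓ N) (hB : Bᵀ = -B)
    (hd : B.det ≠ 0) (hF : FullSp ℓ ρ B) :
    ∃ n1 : ℕ, ∀ n, n1 ≤ n → ∀ g : Mt ℓ N, Isom B g → ‖g - 1‖ ≤ ((ℓ : ℝ) ^ n)⁻¹ →
      ∃ σ : G, ‖ρ σ⁻¹ * g - 1‖ ≤ ((ℓ : ℝ) ^ (n + 1))⁻¹ := by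
  obtain ⟨n0, hn0⟩ := key ρ B hF
  have hl1 : (1 : ℝ) < ℓ := by exact_mod_cast (Fact.out : ℓ.Prime).one_lt
  have hl0 : (0 : ℝ) < ℓ := lR_pos
  obtain ⟨C, hC⟩ : ∃ C : ℝ, C = ‖(2 : ℚ_[ℓ])⁻¹‖ * (‖B⁻¹‖ * ‖B‖) := ⟨_, rfl⟩
  have hC0 : 0 ≤ C := by
    rw [hC]
    positivity
  obtain ⟨n2, hn2⟩ := pow_unbounded_of_one_lt (ℓ * C) hl1
  refine ⟨n0 + n2 + 1, fun n hn g hg hg1 => ?_⟩
  have hU : IsUnit B.det := isUnit_iff_ne_zero.2 hd
  have hBB : B * B⁻¹ = 1 := Matrix.mul_nonsing_inv B hU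
  have hBB' : B⁻¹ * B = 1 := Matrix.nonsing_inv_mul B hU
  obtain ⟨Y, hY⟩ : ∃ Y : Mt ℓ N, Y = ((ℓ : ℚ_[ℓ]) ^ n)⁻¹ • (g - 1) := ⟨_, rfl⟩
  have hgY : g = 1 + (ℓ : ℚ_[ℓ]) ^ n • Y := by
    rw [hY, smul_smul, mul_inv_cancel₀ (pow_ne_zero _ l_ne), one_smul]
    abel
  have hY1 : ‖Y‖ ≤ 1 := by
    rw [hY, norm_smul, norm_inv, norm_l_pow, inv_inv]
    calc (ℓ : ℝ) ^ n * ‖g - 1‖ ≤ (ℓ : ℝ) ^ n * ((ℓ : ℝ) ^ n)⁻¹ := by gcongr
      _ = 1 := mul_inv_cancel₀ (by positivity)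
  have hrel : Yᵀ * B + B * Y = -((ℓ : ℚ_[ℓ]) ^ n • (Yᵀ * B * Y)) := by
    have h1 : gᵀ * B * g = B := hg
    rw [hgY, transpose_add, transpose_one, transpose_smul] at h1
    have h2 : (1 + (ℓ : ℚ_[ℓ]) ^ n • Yᵀ) * B * (1 + (ℓ : ℚ_[ℓ]) ^ n • Y) =
        B + (ℓ : ℚ_[ℓ]) ^ n • (Yᵀ * B + B * Y + (ℓ : ℚ_[ℓ]) ^ n • (Yᵀ * B * Y)) := by
      simp only [add_mul, mul_add, one_mul, mul_one, smul_mul_assoc, mul_smul_comm, smul_add]
      abel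
    rw [h2] at h1
    have h3 : (ℓ : ℚ_[ℓ]) ^ n • (Yᵀ * B + B * Y + (ℓ : ℚ_[ℓ]) ^ n • (Yᵀ * B * Y)) = 0 := by
      simpa using h1
    rcases smul_eq_zero.1 h3 with h4 | h4
    · exact absurd h4 (pow_ne_zero _ l_ne)
    · exact eq_neg_of_add_eq_zero_left h4
  obtain ⟨X, hX⟩ : ∃ X : Mt ℓ N, X = (2 : ℚ_[ℓ])⁻¹ • (Y - B⁻¹ * (Yᵀ * B)) := ⟨_, rfl⟩
  have hXs : SpLie B X := by
    have h1 : X = B⁻¹ * ((2 : ℚ_[ℓ])⁻¹ • (B * Y - Yᵀ * B)) := by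
      rw [hX, mul_smul_comm, mul_sub, ← mul_assoc B⁻¹ B, hBB', one_mul]
    rw [h1]
    refine spLie_of_symm hB hd ?_
    rw [transpose_smul, transpose_sub, transpose_mul, transpose_mul, transpose_transpose, hB]
    congr 1
    rw [mul_neg, neg_mul]
    abel
  have hXY : ‖Y - X‖ ≤ (ℓ : ℝ)⁻¹ := by
    have h1 : Y - X = (2 : ℚ_[ℓ])⁻¹ • (B⁻¹ * (Yᵀ * B + B * Y)) := by
      have h2 : (2 : ℚ_[ℓ])⁻¹ + (2 : ℚ_[ℓ])⁻¹ = 1 := by norm_num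
      have h3 : Y = (2 : ℚ_[ℓ])⁻¹ • Y + (2 : ℚ_[ℓ])⁻¹ • Y := by
        rw [← add_smul, h2, one_smul]
      rw [mul_add, ← mul_assoc B⁻¹ B, hBB', one_mul, hX, smul_sub, smul_add]
      nth_rewrite 1 [h3]
      abel
    rw [h1, hrel, norm_smul]
    have h4 : ‖B⁻¹ * -((ℓ : ℚ_[ℓ]) ^ n • (Yᵀ * B * Y))‖ ≤
        ‖B⁻¹‖ * (((ℓ : ℝ) ^ n)⁻¹ * (1 * ‖B‖ * 1)) := by
      refine (nmul _ _).trans ?_
      rw [norm_neg, norm_smul, norm_l_pow]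
      have h5 : ‖Yᵀ * B * Y‖ ≤ 1 * ‖B‖ * 1 := by
        refine (nmul _ _).trans ?_
        have h6 : ‖Yᵀ * B‖ ≤ 1 * ‖B‖ := by
          refine (nmul _ _).trans ?_
          rw [Matrix.norm_transpose]
          gcongr
        gcongr
      gcongr
    calc ‖(2 : ℚ_[ℓ])⁻¹‖ * ‖B⁻¹ * -((ℓ : ℚ_[ℓ]) ^ n • (Yᵀ * B * Y))‖
        ≤ ‖(2 : ℚ_[ℓ])⁻¹‖ * (‖B⁻¹‖ * (((ℓ : ℝ) ^ n)⁻¹ * (1 * ‖B‖ * 1))) := by gcongr
      _ = C * ((ℓ : ℝ) ^ n)⁻¹ := by rw [hC]; ring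
      _ ≤ (ℓ : ℝ)⁻¹ := by
        have h7 : (ℓ : ℝ) ^ n2 ≤ (ℓ : ℝ) ^ n := pow_le_pow_right₀ hl1.le (by omega)
        rw [mul_inv_le_iff₀ (by positivity), inv_mul_eq_div, le_div_iff₀ hl0]
        linarith
  have hX1 : ‖X‖ ≤ 1 := by
    have h1 : X = Y - (Y - X) := by abel
    rw [h1]
    exact (nsub _ _).trans
      (max_le hY1 (hXY.trans l_inv_lt.le))
  obtain ⟨σ, hσ⟩ := hn0 n (by omega) X hXs hX1
  have h1 : ‖ρ σ - g‖ ≤ ((ℓ : ℝ) ^ (n + 1))⁻¹ := by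
    have h2 : ρ σ - g = (ρ σ - (1 + (ℓ : ℚ_[ℓ]) ^ n • X)) - (ℓ : ℚ_[ℓ]) ^ n • (Y - X) := by
      rw [hgY, smul_sub]
      abel
    rw [h2]
    refine (nsub _ _).trans (max_le hσ ?_)
    rw [norm_smul, norm_l_pow, pow_succ, mul_inv]
    gcongr
  have h2 : ‖ρ σ - 1‖ < 1 := by
    have h3 : ρ σ - 1 = (ρ σ - g) + (g - 1) := by abel
    rw [h3]
    refine (IsUltrametricDist.norm_add_le_max _ _).trans_lt (max_lt ?_ ?_)
    · refine h1.trans_lt ?_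
      exact inv_lt_one_of_one_lt₀ (one_lt_pow₀ hl1 (by omega))
    · refine hg1.trans_lt ?_
      exact inv_lt_one_of_one_lt₀ (one_lt_pow₀ hl1 (by omega))
  have h3 : ρ σ⁻¹ * ρ σ = 1 := by rw [← map_mul, inv_mul_cancel, map_one]
  refine ⟨σ, ?_⟩
  have h4 : ρ σ⁻¹ * g - 1 = -(ρ σ⁻¹ * (ρ σ - g)) := by
    rw [mul_sub, h3]
    abel
  rw [h4, norm_neg]
  calc ‖ρ σ⁻¹ * (ρ σ - g)‖ ≤ ‖ρ σ⁻¹‖ * ‖ρ σ - g‖ := nmul _ _
    _ ≤ 1 * ((ℓ : ℝ) ^ (n + 1))⁻¹ := by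
      gcongr
      exact ninv h3 h2
    _ = _ := one_mul _

/-- the case of isometries -/
theorem open_isom {G : Type} [Group G] [TopologicalSpace G] [CompactSpace G]
    (ρ : G →* Mt ℓ N) (hρ : Continuous ρ) (B : Mt ℓ N) (hB : Bᵀ = -B) (hd : B.det ≠ 0)
    (hI : ∀ g, Isom B (ρ g)) (hF : FullSp ℓ ρ B) : OpenSp ℓ ρ B := by
  obtain ⟨n1, hn1⟩ := step1 ρ B hB hd hF
  have hl1 : (1 : ℝ) < ℓ := by exact_mod_cast (Fact.out : ℓ.Prime).one_lt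
  have hl0 : (0 : ℝ) < ℓ := by linarith
  refine ⟨((ℓ : ℝ) ^ n1)⁻¹, by positivity, fun g hg hg1 => ?_⟩
  have h1 : ∀ k : ℕ, ∃ σ : G, ‖ρ σ⁻¹ * g - 1‖ ≤ ((ℓ : ℝ) ^ (n1 + k))⁻¹ := by
    intro k
    induction k with
    | zero =>
      refine ⟨1, ?_⟩
      rw [inv_one, map_one, one_mul, add_zero, Matrix.norm_le_iff (by positivity)]
      exact fun i j => (hg1 i j).le
    | succ k ih =>
      obtain ⟨σ, hσ⟩ := ih
      obtain ⟨τ, hτ⟩ := hn1 (n1 + k) (by omega) (ρ σ⁻¹ * g) (isom_mul (hI _) hg) hσ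
      refine ⟨σ * τ, ?_⟩
      rw [_root_.mul_inv_rev, map_mul, mul_assoc]
      exact hτ
  have hc : IsCompact (Set.range ρ) := isCompact_range hρ
  obtain ⟨M, hM⟩ := hc.isBounded.exists_norm_le
  have hM0 : 0 ≤ M := (norm_nonneg _).trans (hM (ρ 1) ⟨1, rfl⟩)
  have h2 : g ∈ closure (Set.range ρ) := by
    refine Metric.mem_closure_iff.2 fun ε hε => ?_
    obtain ⟨k, hk⟩ := pow_unbounded_of_one_lt (M / ε) hl1
    obtain ⟨σ, hσ⟩ := h1 k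
    refine ⟨ρ σ, ⟨σ, rfl⟩, ?_⟩
    have h3 : ρ σ * ρ σ⁻¹ = 1 := by rw [← map_mul, mul_inv_cancel, map_one]
    have h4 : g - ρ σ = ρ σ * (ρ σ⁻¹ * g - 1) := by
      rw [mul_sub, ← mul_assoc, h3, one_mul, mul_one]
    rw [dist_eq_norm, h4]
    calc ‖ρ σ * (ρ σ⁻¹ * g - 1)‖ ≤ ‖ρ σ‖ * ‖ρ σ⁻¹ * g - 1‖ := nmul _ _
      _ ≤ M * ((ℓ : ℝ) ^ (n1 + k))⁻¹ := by
        gcongr
        exact hM _ ⟨σ, rfl⟩
      _ < ε := by
        have h5 : (ℓ : ℝ) ^ k ≤ (ℓ : ℝ) ^ (n1 + k) := pow_le_pow_right₀ hl1.le (by omega)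
        rw [mul_inv_lt_iff₀ (by positivity)]
        rw [div_lt_iff₀ hε] at hk
        nlinarith
  rw [hc.isClosed.closure_eq] at h2
  obtain ⟨σ, hσ⟩ := h2
  exact ⟨σ, hσ⟩

/-- task OPENS -/
theorem t : S_OPENS := by
  intro ℓ _ N G _ _ _ _ ρ hρ J hJ hd hI hF
  have hcl : IsClosed (G1 ρ J : Set G) := by
    refine isClosed_eq ?_ continuous_const
    exact (hρ.matrix_transpose.mul continuous_const).mul hρ
  have : CompactSpace (G1 ρ J) := isCompact_iff_compactSpace.1 hcl.isCompact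
  obtain ⟨ε, hε, h⟩ := open_isom (rho1 ρ J) (hρ.comp continuous_subtype_val) J hJ hd
    (fun g => g.2) (full_G1 hJ hd hI hF)
  refine ⟨ε, hε, fun g hg hg1 => ?_⟩
  obtain ⟨σ, hσ⟩ := h g hg hg1
  exact ⟨σ.1, hσ⟩

end Pool.Agent.Y664.ZS
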